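import Pool.Agent.Y811.PC.Stm

set_option autoImplicit false

/-! # Upper bound of the exterior radius by a bounded iterate, all Multibrot sets -/

namespace Pool.Agent.Y154.PC

open Complex Metric Set Filter Topology Pool.Agent.H712R2 Pool.Agent.H713R2 N62a1eb23
open Pool.Agent.Y811.PC

theorem pow_gap {M : ℝ} (h3 : 4 ≤ M) {d : ℕ} (hd : 2 ≤ d) : (M - 1) ^ d + 4 ≤ M ^ d := by
  obtain ⟨e, rfl⟩ : ∃ e, d = e + 2 := ⟨d - 2, by omega⟩
  have h8 : (M - 1) ^ (e + 1) ≤ M ^ (e + 1) := pow_le_pow_left₀ (by linarith) (by linarith) _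
  have h9 : M ≤ M ^ (e + 1) := by
    have := pow_le_pow_right₀ (by linarith : (1 : ℝ) ≤ M) (by omega : 1 ≤ e + 1)
    rwa [pow_one] at this
  have h10 : (M - 1) ^ (e + 2) = (M - 1) * (M - 1) ^ (e + 1) := by ring
  have h11 : M ^ (e + 2) = M * M ^ (e + 1) := by ring
  have h12 : (M - 1) * (M - 1) ^ (e + 1) ≤ (M - 1) * M ^ (e + 1) :=
    mul_le_mul_of_nonneg_left h8 (by linarith)
  rw [h10, h11]
  linarith

theorem t_GU : S_GU := by
  intro d hd ψ hψ z hz n h1 h2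
  obtain ⟨β, hβ⟩ := exists_beta hd
  rw [exteriorMap_unique hβ hψ hz] at h1 h2
  obtain ⟨hx, hx0⟩ := inv_mem_ball hz
  obtain ⟨c, hc⟩ : ∃ c, c = z * β z⁻¹ := ⟨_, rfl⟩
  rw [← hc] at h1 h2
  have hgrow : ∀ j, ‖P d (n + 1 + j) c‖ ≤ 4 ^ (d ^ j) - 1 := by
    intro j
    induction j with
    | zero =>
      rw [add_zero, pow_zero, pow_one]
      linarith
    | succ j ih =>
      rw [← add_assoc, P_succ]
      have h3 : (4 : ℝ) ≤ 4 ^ (d ^ j) := by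
        have : (4 : ℝ) ^ 1 ≤ 4 ^ (d ^ j) :=
          pow_le_pow_right₀ (by norm_num) (Nat.one_le_pow _ _ (by omega))
        rwa [pow_one] at this
      obtain ⟨M, hM⟩ : ∃ M : ℝ, M = 4 ^ (d ^ j) := ⟨_, rfl⟩
      rw [← hM] at h3 ih
      have h4 := norm_add_le (P d (n + 1 + j) c ^ d) c
      rw [norm_pow] at h4
      have h5 : ‖P d (n + 1 + j) c‖ ^ d ≤ (M - 1) ^ d :=
        pow_le_pow_left₀ (norm_nonneg _) ih d
      have h6 : (4 : ℝ) ^ (d ^ (j + 1)) = M ^ d := by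
        rw [hM, ← pow_mul, pow_succ]
      rw [h6]
      have h7 := pow_gap h3 hd
      linarith
  obtain ⟨κ, hκ⟩ : ∃ κ, κ = Real.exp (-(2 * Real.log 2 * ‖z⁻¹‖ / (1 - ‖z⁻¹‖))) := ⟨_, rfl⟩
  have hκ0 : 0 < κ := by rw [hκ]; exact Real.exp_pos _
  by_contra hcon
  push Not at hcon
  have hzpos : 0 < ‖z‖ := by linarith
  have key : ∀ j, κ ≤ (4 / ‖z‖ ^ (d ^ n)) ^ (d ^ j) := by
    intro j
    have h3 := Pool.Agent.W677.MB.BB_lower hd hβ (n + j) hx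
    rw [← hκ, BB_eq hd β (n + j) z⁻¹ hx0, inv_inv, ← hc, norm_mul, norm_pow, norm_inv] at h3
    have h4 := hgrow j
    rw [show n + 1 + j = n + j + 1 by ring] at h4
    have h5 : ‖z‖⁻¹ ^ d ^ (n + j) * ‖P d (n + j + 1) c‖ ≤ ‖z‖⁻¹ ^ d ^ (n + j) * 4 ^ (d ^ j) :=
      mul_le_mul_of_nonneg_left (by linarith) (by positivity)
    refine h3.trans (h5.trans (le_of_eq ?_))
    rw [div_pow, ← pow_mul, ← pow_add, inv_pow]
    field_simp
  have hlt : 4 / ‖z‖ ^ (d ^ n) < 1 := by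
    rw [div_lt_one (by positivity)]
    exact hcon
  have hlim : Tendsto (fun j : ℕ => (4 / ‖z‖ ^ (d ^ n)) ^ (d ^ j)) atTop (𝓝 0) :=
    (tendsto_pow_atTop_nhds_zero_of_lt_one (by positivity) hlt).comp
      (tendsto_pow_atTop_atTop_of_one_lt (by omega : 1 < d))
  have := ge_of_tendsto' hlim key
  linarith

end Pool.Agent.Y154.PC
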